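import Pool.Agent.W536.LM.Stm

open Polynomial W536.LM

namespace Pool.Agent.W847.LM

/-- a polynomial of order `n` at `0` -/
theorem ord0 (Ψ : ℝ[X]) (n : ℕ) (u : PowerSeries ℝ) (hu : IsUnit u)
    (h : (Polynomial.aeval (PowerSeries.X : PowerSeries ℝ) Ψ) = PowerSeries.X ^ n * u) :
    ∃ q : ℝ[X], Ψ = X ^ n * q ∧ q.eval 0 ≠ 0 := by
  have h1 : (Ψ : PowerSeries ℝ) = PowerSeries.X ^ n * u := by
    rw [← h, ← Polynomial.eval₂_C_X_eq_coe]
    rfl
  have hc : ∀ d, Ψ.coeff d = PowerSeries.coeff d (PowerSeries.X ^ n * u) := by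
    intro d
    rw [← h1, Polynomial.coeff_coe]
  have hdvd : X ^ n ∣ Ψ := by
    rw [Polynomial.X_pow_dvd_iff]
    intro d hd
    rw [hc d, PowerSeries.coeff_X_pow_mul', if_neg (by omega)]
  obtain ⟨q, hq⟩ := hdvd
  refine ⟨q, hq, ?_⟩
  have h2 : Ψ.coeff n = q.eval 0 := by
    rw [hq, ← Polynomial.coeff_zero_eq_eval_zero, Polynomial.coeff_X_pow_mul', if_pos le_rfl,
      Nat.sub_self]
  have h3 : Ψ.coeff n = PowerSeries.constantCoeff u := by
    rw [hc n, PowerSeries.coeff_X_pow_mul', if_pos le_rfl, Nat.sub_self,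
      PowerSeries.coeff_zero_eq_constantCoeff]
  rw [← h2, h3]
  exact (hu.map (PowerSeries.constantCoeff (R := ℝ))).ne_zero

/-- constant sign on an interval without zeros -/
theorem sgn (Φ : ℝ[X]) {a b : ℝ} (hab : a ≤ b) (h : ∀ x, a ≤ x → x ≤ b → Φ.eval x ≠ 0) :
    0 < Φ.eval a ↔ 0 < Φ.eval b := by
  have hc : ContinuousOn (fun x => Φ.eval x) (Set.Icc a b) := Φ.continuous.continuousOn
  constructor
  · intro ha
    by_contra hb
    push Not at hb
    obtain ⟨x, hx, hx0⟩ := intermediate_value_Icc' hab hc ⟨hb, ha.le⟩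
    exact h x hx.1 hx.2 hx0
  · intro hb
    by_contra ha
    push Not at ha
    obtain ⟨x, hx, hx0⟩ := intermediate_value_Icc hab hc ⟨ha, hb.le⟩
    exact h x hx.1 hx.2 hx0

/-- constant sign near a point where the value is not zero -/
theorem loc (q : ℝ[X]) (h : q.eval 0 ≠ 0) : ∃ ε > 0, ∀ x : ℝ, |x| < ε →
    0 < q.eval 0 * q.eval x := by
  have hc : ContinuousAt (fun x : ℝ => q.eval 0 * q.eval x) 0 :=
    (continuous_const.mul q.continuous).continuousAt
  have h0 : 0 < q.eval 0 * q.eval 0 := mul_self_pos.mpr h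
  have h1 := hc.eventually (lt_mem_nhds h0)
  obtain ⟨ε, hε, hx⟩ := Metric.eventually_nhds_iff.mp h1
  refine ⟨ε, hε, fun x hxe => ?_⟩
  apply hx
  rw [Real.dist_eq, sub_zero]
  exact hxe

theorem t_SIGN : S_SIGN := by
  intro Φ κ c hκ hκ1 hc hA hB hP hN hE
  obtain ⟨u, hu, hu1⟩ := hA
  obtain ⟨v, hv, hv1⟩ := hB
  obtain ⟨q, hq, hq0⟩ := ord0 Φ 14 u hu hu1
  have hv2 : (Polynomial.aeval (PowerSeries.X : PowerSeries ℝ) (Φ.comp (1 + X)))
      = PowerSeries.X ^ 5 * v := by
    rw [Polynomial.aeval_comp, ← hv1]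
    congr 2
    simp
  obtain ⟨q1, hq1, hq10⟩ := ord0 (Φ.comp (1 + X)) 5 v hv hv2
  have e0 : ∀ x : ℝ, Φ.eval x = x ^ 14 * q.eval x := by
    intro x
    conv_lhs => rw [hq]
    simp
  have e1 : ∀ x : ℝ, Φ.eval (1 + x) = x ^ 5 * q1.eval x := by
    intro x
    have := congrArg (Polynomial.eval x) hq1
    simpa [Polynomial.eval_comp] using this
  obtain ⟨ε0, hε0, l0⟩ := loc q hq0
  obtain ⟨ε1, hε1, l1⟩ := loc q1 hq10
  by_contra hcon
  push Not at hcon
  -- positivity of q 0
  have hq0pos : 0 < q.eval 0 := by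
    set x : ℝ := -(min (ε0 / 2) κ) with hx
    have hm : 0 < min (ε0 / 2) κ := lt_min (by linarith) hκ
    have hxk : -κ ≤ x := by rw [hx]; exact neg_le_neg (min_le_right _ _)
    have hx0 : x < 0 := by rw [hx]; linarith
    have h1 : 0 < Φ.eval x := by
      rw [← sgn Φ hxk]
      · exact hN
      · intro y hy1 hy2 hy3
        have hyneg : y < 0 := lt_of_le_of_lt hy2 hx0
        refine hcon y (ne_of_lt hyneg) (by linarith) ?_ hy3
        have := sq_nonneg κ
        linarith
    rw [e0] at h1
    have h2 : 0 < q.eval x := by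
      by_contra h3
      push Not at h3
      have h4 : x ^ 14 * q.eval x ≤ 0 :=
        mul_nonpos_of_nonneg_of_nonpos (by positivity) h3
      linarith
    have h3 := l0 x (by
      rw [hx, abs_neg, abs_of_pos hm]
      exact lt_of_le_of_lt (min_le_left _ _) (by linarith))
    exact pos_of_mul_pos_left h3 h2.le
  have near0 : ∀ x : ℝ, 0 < x → x < ε0 → 0 < Φ.eval x := by
    intro x hx hxe
    have h3 := l0 x (by rw [abs_of_pos hx]; exact hxe)
    have h4 : 0 < q.eval x := pos_of_mul_pos_right h3 hq0pos.le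
    rw [e0]
    positivity
  rcases lt_or_gt_of_ne hκ1 with hlt | hgt
  · -- κ < 1
    have hk2 : κ ^ 2 < κ := by nlinarith
    have hk20 : 0 < κ ^ 2 := by positivity
    have pos1 : ∀ x : ℝ, 0 < x → x < κ ^ 2 → 0 < Φ.eval x := by
      intro x hx hxk
      set y : ℝ := min (ε0 / 2) x with hy
      have hy0 : 0 < y := lt_min (by linarith) hx
      have hyx : y ≤ x := min_le_right _ _
      have hye : y < ε0 := lt_of_le_of_lt (min_le_left _ _) (by linarith)
      rw [← sgn Φ hyx]
      · exact near0 y hy0 hye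
      · intro z hz1 hz2 hz3
        exact hcon z (by linarith) (by linarith) (by linarith) hz3
    have pos2 : ∀ x : ℝ, 1 < x → 0 < Φ.eval x := by
      intro x hx
      have hx0 : 0 < x := by linarith
      have h1 : 0 < Φ.eval (κ ^ 2 / x) := by
        apply pos1
        · positivity
        · rw [div_lt_iff₀ hx0]
          nlinarith
      have h2 := hE x (ne_of_gt hx0)
      have h3 : 0 < c * Φ.eval x := by
        rw [← h2]
        positivity
      exact pos_of_mul_pos_right h3 hc.le
    have hq1pos : 0 < q1.eval 0 := by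
      have h1 := pos2 (1 + ε1 / 2) (by linarith)
      rw [e1] at h1
      have h2 : 0 < q1.eval (ε1 / 2) := pos_of_mul_pos_right h1 (by positivity)
      have h3 := l1 (ε1 / 2) (by rw [abs_of_pos (by linarith)]; linarith)
      exact pos_of_mul_pos_left h3 h2.le
    set t : ℝ := min (ε1 / 2) (1 - κ) with ht
    have ht0 : 0 < t := lt_min (by linarith) (by linarith)
    have htk : κ ≤ 1 + -t := by
      have : t ≤ 1 - κ := min_le_right _ _
      linarith
    have hte : |-t| < ε1 := by
      rw [abs_neg, abs_of_pos ht0]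
      exact lt_of_le_of_lt (min_le_left _ _) (by linarith)
    have h5 : 0 < Φ.eval (1 + -t) := by
      rw [← sgn Φ htk]
      · exact hP
      · intro z hz1 hz2 hz3
        exact hcon z (by linarith) (by linarith) (by linarith) hz3
    rw [e1] at h5
    have h6 : 0 < q1.eval (-t) := pos_of_mul_pos_right (l1 _ hte) hq1pos.le
    have h7 : (-t) ^ 5 < 0 := Odd.pow_neg (by decide) (by linarith)
    have h8 := mul_neg_of_neg_of_pos h7 h6
    linarith
  · -- κ > 1
    have hk2 : κ < κ ^ 2 := by nlinarith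
    have pos1 : ∀ x : ℝ, 0 < x → x < 1 → 0 < Φ.eval x := by
      intro x hx hxk
      set y : ℝ := min (ε0 / 2) x with hy
      have hy0 : 0 < y := lt_min (by linarith) hx
      have hyx : y ≤ x := min_le_right _ _
      have hye : y < ε0 := lt_of_le_of_lt (min_le_left _ _) (by linarith)
      rw [← sgn Φ hyx]
      · exact near0 y hy0 hye
      · intro z hz1 hz2 hz3
        exact hcon z (by linarith) (by linarith) (by linarith) hz3
    have hq1neg : q1.eval 0 < 0 := by
      set t : ℝ := min (ε1 / 2) (1 / 2) with ht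
      have ht0 : 0 < t := lt_min (by linarith) (by norm_num)
      have ht1 : t ≤ 1 / 2 := min_le_right _ _
      have hte : |-t| < ε1 := by
        rw [abs_neg, abs_of_pos ht0]
        exact lt_of_le_of_lt (min_le_left _ _) (by linarith)
      have h1 := pos1 (1 + -t) (by linarith) (by linarith)
      rw [e1] at h1
      have h7 : (-t) ^ 5 < 0 := Odd.pow_neg (by decide) (by linarith)
      have h2 : q1.eval (-t) < 0 := by
        by_contra h3
        push Not at h3
        have := mul_nonpos_of_nonpos_of_nonneg h7.le h3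
        linarith
      have h3 := l1 _ hte
      by_contra h4
      push Not at h4
      have := mul_nonpos_of_nonneg_of_nonpos h4 h2.le
      linarith
    set t : ℝ := min (ε1 / 2) (κ - 1) with ht
    have ht0 : 0 < t := lt_min (by linarith) (by linarith)
    have htk : 1 + t ≤ κ := by
      have : t ≤ κ - 1 := min_le_right _ _
      linarith
    have hte : |t| < ε1 := by
      rw [abs_of_pos ht0]
      exact lt_of_le_of_lt (min_le_left _ _) (by linarith)
    have h5 : 0 < Φ.eval (1 + t) := by
      rw [sgn Φ htk]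
      · exact hP
      · intro z hz1 hz2 hz3
        exact hcon z (by linarith) (by linarith) (by linarith) hz3
    rw [e1] at h5
    have h6 : 0 < q1.eval t := pos_of_mul_pos_right h5 (by positivity)
    have h7 := l1 _ hte
    have h8 := mul_neg_of_neg_of_pos hq1neg h6
    linarith

end Pool.Agent.W847.LM
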